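import Pool.Agent.Q158.KIrr

/-!
# The number of `k`-irreducible posets of `k`-dimension `t` grows exponentially in `t`
-/

set_option autoImplicit false

namespace Pool.Agent.Results.MP_f639ae_co.ExponentialGrowth

open Q158.KIrr

/-- For all `k ≥ 2` and `t ≥ 4` there are at least `2 ^ ⌊((k - 1)(t - 1) - 1) / 6⌋` isomorphism
classes of `k`-irreducible posets of `k`-dimension `t`. In particular, for every fixed `k ≥ 2`,
`N k t` is not `O(t ^ c)` for any `c`. -/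
theorem result :
    (∀ k t : ℕ, 2 ≤ k → 4 ≤ t → ((2 ^ (((k - 1) * (t - 1) - 1) / 6) : ℕ) : ℕ∞) ≤ N k t) ∧
    (∀ k : ℕ, 2 ≤ k → ∀ c C t₀ : ℕ, ∃ t, t₀ ≤ t ∧ ((C * t ^ c : ℕ) : ℕ∞) < N k t) :=
  ⟨fun _ _ hk ht => N_lower hk ht, fun _ hk c C t₀ => not_poly hk c C t₀⟩

end Pool.Agent.Results.MP_f639ae_co.ExponentialGrowth
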